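import Mathlib

set_option autoImplicit false

namespace Pool.Agent.Results.MP_1fc697_co.ConnectedGraphBoundFails

open Finset

/-- `f` takes values in `{-1, 1}`. -/
def IsSigned {V : Type} (f : V → ℤ) : Prop := ∀ v, f v = 1 ∨ f v = -1

open Classical in
/-- `f[v]`, the sum of `f` over the closed neighbourhood of `v`. -/
noncomputable def closedSum {V : Type} [Fintype V] (G : SimpleGraph V) (f : V → ℤ) (v : V) : ℤ :=
  ∑ u ∈ univ.filter (fun u => u = v ∨ G.Adj v u), f u

open Classical in
/-- `C_f`, the set of vertices covered by `f`. -/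
noncomputable def covered {V : Type} [Fintype V] (G : SimpleGraph V) (f : V → ℤ) : Finset V :=
  univ.filter (fun v => 1 ≤ closedSum G f v)

/-- The weights of the signed `k`-subdominating functions of `G`. -/
def weights {V : Type} [Fintype V] (G : SimpleGraph V) (k : ℕ) : Set ℤ :=
  {w | ∃ f : V → ℤ, IsSigned f ∧ k ≤ (covered G f).card ∧ w = ∑ v, f v}

/-- The signed `k`-subdomination number `γ_ks^{-11}(G)`: the minimum weight of a signed
`k`-subdominating function (for `k ≤ n` the set of weights is nonempty and bounded below). -/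
noncomputable def gammaKs {V : Type} [Fintype V] (G : SimpleGraph V) (k : ℕ) : ℤ :=
  sInf (weights G k)

/-- The inequality `γ_ks^{-11}(G) ≤ 2k - n` for all connected `G` of order `n` and all
`p ≤ k ≤ n`. -/
def BoundFrom (n p : ℕ) : Prop :=
  ∀ (V : Type) [Fintype V], Fintype.card V = n → ∀ G : SimpleGraph V, G.Connected →
    ∀ k : ℕ, p ≤ k → k ≤ n → gammaKs G k ≤ 2 * (k : ℤ) - n

/-- `p_𝒢(n)` for the class `𝒢` of connected graphs. -/
noncomputable def pG (n : ℕ) : ℕ := sInf {p | BoundFrom n p}

/-- The crown graph: `K_{N,N}` minus a perfect matching. -/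
def crown (N : ℕ) : SimpleGraph (Fin N × Bool) where
  Adj u v := u.1 ≠ v.1 ∧ u.2 ≠ v.2
  symm := ⟨fun _ _ h => ⟨h.1.symm, h.2.symm⟩⟩
  loopless := ⟨fun _ h => h.1 rfl⟩

lemma weights_nonempty {V : Type} [Fintype V] (G : SimpleGraph V) (k : ℕ)
    (hk : k ≤ Fintype.card V) : (weights G k).Nonempty := by
  classical
  refine ⟨_, fun _ => 1, fun _ => Or.inl rfl, ?_, rfl⟩
  have : covered G (fun _ : V => (1 : ℤ)) = univ := by
    ext v
    simp only [covered, closedSum, mem_filter, mem_univ, true_and, sum_const, nsmul_eq_mul,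
      mul_one, iff_true]
    have : 0 < (univ.filter (fun u => u = v ∨ G.Adj v u)).card :=
      Finset.card_pos.2 ⟨v, by simp⟩
    exact_mod_cast this
  rw [this, Finset.card_univ]
  exact hk

lemma weights_bddBelow {V : Type} [Fintype V] (G : SimpleGraph V) (k : ℕ) :
    BddBelow (weights G k) := by
  refine ⟨-(Fintype.card V : ℤ), ?_⟩
  rintro w ⟨f, hf, -, rfl⟩
  have : ∑ _v : V, (-1 : ℤ) ≤ ∑ v, f v :=
    Finset.sum_le_sum fun v _ => by rcases hf v with h | h <;> omega
  simpa using this

lemma closedSum_crown (N : ℕ) (f : Fin N × Bool → ℤ) (x : Fin N) (a : Bool) :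
    closedSum (crown N) f (x, a) = f (x, a) + ∑ y : Fin N, f (y, !a) - f (x, !a) := by
  classical
  have key : ∑ u ∈ insert (x, a) ((univ.erase x).image (fun y : Fin N => (y, !a))), f u =
      f (x, a) + ∑ y : Fin N, f (y, !a) - f (x, !a) := by
    rw [Finset.sum_insert, Finset.sum_image, ← Finset.add_sum_erase univ _ (mem_univ x)]
    · ring
    · intro y _ z _ h
      exact (Prod.mk.inj h).1
    · simp only [mem_image, mem_erase, mem_univ, Prod.mk.injEq, not_exists, not_and]
      intro y _ _ h
      cases a <;> simp at h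
  unfold closedSum
  rw [← key]
  refine Finset.sum_congr ?_ fun _ _ => rfl
  ext ⟨y, b⟩
  simp only [mem_filter, mem_univ, true_and, mem_insert, mem_image, mem_erase, crown,
    Prod.mk.injEq, and_true]
  constructor
  · rintro (h | ⟨h1, h2⟩)
    · exact Or.inl h
    · right
      refine ⟨y, fun h => h1 h.symm, rfl, ?_⟩
      cases a <;> cases b <;> simp_all
  · rintro (h | ⟨z, hz, rfl, rfl⟩)
    · exact Or.inl h
    · right
      refine ⟨fun h => hz h.symm, ?_⟩
      cases a <;> simp

lemma sum_pair (N : ℕ) (f : Fin N × Bool → ℤ) :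
    ∑ v, f v = ∑ y : Fin N, f (y, true) + ∑ y : Fin N, f (y, false) := by
  rw [Fintype.sum_prod_type, ← Finset.sum_add_distrib]
  refine Finset.sum_congr rfl fun y _ => ?_
  simp

lemma closedSum_add (N : ℕ) (f : Fin N × Bool → ℤ) (x : Fin N) :
    closedSum (crown N) f (x, true) + closedSum (crown N) f (x, false) = ∑ v, f v := by
  rw [closedSum_crown, closedSum_crown, sum_pair]
  simp only [Bool.not_true, Bool.not_false]
  ring

lemma even_closedSum (m : ℕ) (f : Fin (2 * m) × Bool → ℤ) (hf : IsSigned f)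
    (v : Fin (2 * m) × Bool) : Even (closedSum (crown (2 * m)) f v) := by
  obtain ⟨x, a⟩ := v
  rw [closedSum_crown]
  have h1 : ∀ y : Fin (2 * m), f (y, !a) = 1 - 2 * ((1 - f (y, !a)) / 2) := by
    intro y
    rcases hf (y, !a) with h | h <;> rw [h] <;> norm_num
  have h2 : ∑ y : Fin (2 * m), f (y, !a) =
      2 * ((m : ℤ) - ∑ y : Fin (2 * m), (1 - f (y, !a)) / 2) := by
    rw [Finset.sum_congr rfl fun y _ => h1 y, Finset.sum_sub_distrib, ← Finset.mul_sum]
    simp
    ring
  rw [h2]
  rcases hf (x, a) with h | h <;> rcases hf (x, !a) with h' | h' <;> rw [h, h'] <;>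
    rw [Int.even_iff] <;> omega

lemma card_covered_le (m : ℕ) (f : Fin (2 * m) × Bool → ℤ) (hf : IsSigned f)
    (hw : ∑ v, f v < 4) : (covered (crown (2 * m)) f).card ≤ 2 * m := by
  classical
  have hinj : Set.InjOn Prod.fst (covered (crown (2 * m)) f : Set (Fin (2 * m) × Bool)) := by
    rintro ⟨x, a⟩ hx ⟨y, b⟩ hy hxy
    simp only at hxy
    subst hxy
    have hx' : 1 ≤ closedSum (crown (2 * m)) f (x, a) := by
      simpa [covered] using hx
    have hy' : 1 ≤ closedSum (crown (2 * m)) f (x, b) := by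
      simpa [covered] using hy
    obtain ⟨c, hc⟩ := even_closedSum m f hf (x, a)
    obtain ⟨d, hd⟩ := even_closedSum m f hf (x, b)
    have hs := closedSum_add (2 * m) f x
    cases a <;> cases b <;> first | rfl | (exfalso; omega)
  have := Finset.card_le_card_of_injOn (s := covered (crown (2 * m)) f)
    (t := (univ : Finset (Fin (2 * m)))) Prod.fst (fun _ _ => mem_univ _) hinj
  simpa using this

lemma crown_connected (N : ℕ) (hN : 3 ≤ N) : (crown N).Connected := by
  have hne : ∀ x y : Fin N, ∃ z, z ≠ x ∧ z ≠ y := by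
    intro x y
    have : ∃ z ∈ (univ : Finset (Fin N)), z ∉ ({x, y} : Finset (Fin N)) := by
      by_contra h
      push Not at h
      have h1 : (univ : Finset (Fin N)).card ≤ ({x, y} : Finset (Fin N)).card :=
        Finset.card_le_card h
      have h2 : ({x, y} : Finset (Fin N)).card ≤ 2 := Finset.card_le_two
      rw [Finset.card_univ, Fintype.card_fin] at h1
      omega
    obtain ⟨z, -, hz⟩ := this
    simp only [mem_insert, mem_singleton, not_or] at hz
    exact ⟨z, hz.1, hz.2⟩
  have hadj : ∀ (x y : Fin N) (a : Bool), x ≠ y → (crown N).Reachable (x, a) (y, !a) := by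
    intro x y a h
    refine SimpleGraph.Adj.reachable ?_
    exact ⟨h, by cases a <;> simp⟩
  have hsame : ∀ (x y : Fin N) (a : Bool), (crown N).Reachable (x, a) (y, a) := by
    intro x y a
    obtain ⟨z, hz1, hz2⟩ := hne x y
    have h1 := hadj x z a hz1.symm
    have h2 := hadj z y (!a) hz2
    rw [Bool.not_not] at h2
    exact h1.trans h2
  have : Nonempty (Fin N × Bool) := ⟨(⟨0, by omega⟩, true)⟩
  refine SimpleGraph.Connected.mk ?_
  rintro ⟨x, a⟩ ⟨y, b⟩
  by_cases hab : a = b
  · subst hab
    exact hsame x y a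
  · obtain ⟨z, hz1, _⟩ := hne x x
    have hb : b = !a := by cases a <;> cases b <;> simp_all
    subst hb
    exact (hadj x z a hz1.symm).trans (hsame z y (!a))

/-- A signing of the crown graph of weight `4` which covers every vertex. -/
lemma exists_good (m : ℕ) (hm : 1 ≤ m) : ∃ f : Fin (2 * m) × Bool → ℤ, IsSigned f ∧
    (∀ v, 1 ≤ closedSum (crown (2 * m)) f v) ∧ ∑ v, f v = 4 := by
  classical
  let g : Fin (2 * m) → ℤ := fun x => if x.1 < m + 1 then 1 else -1
  have hg : ∑ y : Fin (2 * m), g y = 2 := by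
    have h1 : ∑ y : Fin (2 * m), g y = ∑ i ∈ range (2 * m), (if i < m + 1 then (1 : ℤ) else -1) :=
      Fin.sum_univ_eq_sum_range (fun i => if i < m + 1 then (1 : ℤ) else -1) (2 * m)
    rw [h1]
    have h2 : 2 * m = (m + 1) + (m - 1) := by omega
    rw [h2, Finset.sum_range_add]
    have h3 : ∑ i ∈ range (m + 1), (if i < m + 1 then (1 : ℤ) else -1) = (m : ℤ) + 1 := by
      rw [Finset.sum_congr rfl (g := fun _ => (1 : ℤ))]
      · simp
      · intro i hi
        rw [if_pos (mem_range.1 hi)]
    have h4 : ∑ i ∈ range (m - 1), (if m + 1 + i < m + 1 then (1 : ℤ) else -1) =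
        -((m : ℤ) - 1) := by
      rw [Finset.sum_congr rfl (g := fun _ => (-1 : ℤ))]
      · rw [Finset.sum_const, card_range, nsmul_eq_mul]
        push_cast [Nat.cast_sub hm]
        ring
      · intro i _
        rw [if_neg (by omega)]
    rw [h3, h4]
    ring
  refine ⟨fun v => g v.1, ?_, ?_, ?_⟩
  · rintro ⟨x, a⟩
    simp only [g]
    split_ifs <;> simp
  · rintro ⟨x, a⟩
    rw [closedSum_crown]
    simp only
    rw [hg]
    omega
  · rw [sum_pair]
    simp only
    rw [hg]
    norm_num

/-- **The bound `γ_ks^{-11}(G) ≤ 2k - n` fails for connected graphs with `k > n / 2`, for every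
order `n = 4m`, `m ≥ 2`.** The crown graph `G` on `4m` vertices is connected and, for
`k = 2m + 1 = n/2 + 1`, satisfies `γ_ks^{-11}(G) = 2(k+1) - n`. Consequently
`p_𝒢(4m) ≥ 2m + 2 > ⌊4m/2⌋ + 1` for every `m ≥ 2`. -/
theorem result (m : ℕ) (hm : 2 ≤ m) :
    Fintype.card (Fin (2 * m) × Bool) = 4 * m ∧
    (crown (2 * m)).Connected ∧
    gammaKs (crown (2 * m)) (2 * m + 1) = 2 * (((2 * m + 1 : ℕ) : ℤ) + 1) - (4 * m : ℕ) ∧
    2 * m + 2 ≤ pG (4 * m) ∧
    pG (4 * m) ≠ 4 * m / 2 + 1 := by
  have hcard : Fintype.card (Fin (2 * m) × Bool) = 4 * m := by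
    rw [Fintype.card_prod, Fintype.card_fin, Fintype.card_bool]
    ring
  have hconn : (crown (2 * m)).Connected := crown_connected _ (by omega)
  have hgamma : gammaKs (crown (2 * m)) (2 * m + 1) = 4 := by
    refine le_antisymm ?_ ?_
    · refine csInf_le (weights_bddBelow _ _) ?_
      obtain ⟨f, hf, hc, hw⟩ := exists_good m (by omega)
      refine ⟨f, hf, ?_, hw.symm⟩
      have : covered (crown (2 * m)) f = univ := by
        ext v
        simp [covered, hc v]
      rw [this, Finset.card_univ, hcard]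
      omega
    · refine le_csInf (weights_nonempty _ _ (by rw [hcard]; omega)) ?_
      rintro w ⟨f, hf, hk, rfl⟩
      by_contra h
      push Not at h
      have := card_covered_le m f hf h
      omega
  have hp : 2 * m + 2 ≤ pG (4 * m) := by
    refine le_csInf ⟨4 * m + 1, ?_⟩ ?_
    · intro V _ _ G _ k h1 h2
      omega
    · intro p hp
      by_contra h
      push Not at h
      have := hp (Fin (2 * m) × Bool) hcard (crown (2 * m)) hconn (2 * m + 1) (by omega) (by omega)
      rw [hgamma] at this
      push_cast at this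
      linarith
  refine ⟨hcard, hconn, ?_, hp, ?_⟩
  · rw [hgamma]
    push_cast
    ring
  · omega

end Pool.Agent.Results.MP_1fc697_co.ConnectedGraphBoundFails
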